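import Pool.Agent.Helper9.RC2.Goals
import Pool.Agent.Helper62.RC.Mp

/-!
# MP_b55b7c_an, packet TCGA: comparison in the fixed point algebra gives tracial comparison
with a gap
-/

open scoped ENNReal NNReal InnerProductSpace ComplexOrder
open Filter Topology

attribute [-instance] CStarMatrix.instAlgebra CStarMatrix.instModule CStarMatrix.instSMul
  CStarMatrix.instMulAction CStarMatrix.instDistribMulAction

set_option linter.unusedSectionVars false

noncomputable section
namespace Pool.Agent.Helper35.RC2.TCGA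
open RC
universe u

section
variable {A : Type u} [CStarAlgebra A] [PartialOrder A] [StarOrderedRing A]
variable {B : Type u} [CStarAlgebra B] [PartialOrder B] [StarOrderedRing B]
variable {ι κ μ ν : Type} [Fintype ι] [DecidableEq ι] [Fintype κ] [DecidableEq κ]
  [Fintype μ] [DecidableEq μ] [Fintype ν] [DecidableEq ν]

theorem sum_apply' {β : Type} (S : Finset β) (f : β → CStarMatrix ι κ A) (i : ι) (k : κ) :
    (∑ b ∈ S, f b) i k = ∑ b ∈ S, f b i k := Matrix.sum_apply _ _ _ _

theorem mul_sum' {β : Type} (S : Finset β) (x : CStarMatrix ι κ A)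
    (f : β → CStarMatrix κ μ A) : x * ∑ b ∈ S, f b = ∑ b ∈ S, x * f b :=
  Matrix.mul_sum S f x

theorem sum_mul' {β : Type} (S : Finset β) (x : CStarMatrix κ μ A)
    (f : β → CStarMatrix ι κ A) : (∑ b ∈ S, f b) * x = ∑ b ∈ S, f b * x :=
  Matrix.sum_mul S f x

theorem mp_sum (j : B →⋆ₐ[ℂ] A) {β : Type} (S : Finset β) (f : β → CStarMatrix ι κ B) :
    mp j (∑ b ∈ S, f b) = ∑ b ∈ S, mp j (f b) := by
  ext i k
  rw [sum_apply']
  show j ((∑ b ∈ S, f b) i k) = _
  rw [sum_apply', map_sum]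
  rfl

theorem mp_one (j : B →⋆ₐ[ℂ] A) : mp j (1 : CStarMatrix ι ι B) = 1 := by
  ext i l
  show j ((1 : CStarMatrix ι ι B) i l) = _
  rw [CStarMatrix.one_apply, CStarMatrix.one_apply]
  split_ifs
  · exact map_one j
  · exact map_zero j

/-- The column with `1` at `i`. -/
def col (A : Type u) [CStarAlgebra A] {ι : Type} [DecidableEq ι] (i : ι) :
    CStarMatrix ι Unit A :=
  CStarMatrix.ofMatrix (Matrix.of fun k _ => if k = i then 1 else 0)

theorem col_sum : ∑ i : ι, col A i * (col A i).conjTranspose = 1 := by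
  ext k l
  rw [sum_apply', CStarMatrix.one_apply]
  have h : ∀ i : ι, (col A i * (col A i).conjTranspose) k l =
      (if k = i then 1 else 0) * (if l = i then 1 else 0) := by
    intro i
    rw [CStarMatrix.mul_apply, Fintype.sum_unique, CStarMatrix.conjTranspose_apply]
    show (if k = i then (1 : A) else 0) * star (if l = i then (1 : A) else 0) = _
    congr 1
    split_ifs
    · exact star_one _
    · exact star_zero _
  simp only [h]
  by_cases hkl : k = l
  · subst hkl
    simp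
  · simp [hkl]

/-- The unit of the matrices over `A` as a sum. -/
theorem one_eq (j : B →⋆ₐ[ℂ] A) {n p : ℕ} (c : CStarMatrix (Fin n) (Fin n) B)
    (y : Fin p → CStarMatrix Unit (Fin n) B)
    (h : ∑ k, y k * c * (y k).conjTranspose = 1) :
    ∑ l : ι × Fin p, (col A l.1 * mp j (y l.2)) * mp j c *
      (col A l.1 * mp j (y l.2)).conjTranspose = (1 : CStarMatrix ι ι A) := by
  have h1 : ∑ k, mp j (y k) * mp j c * (mp j (y k)).conjTranspose =
      (1 : CStarMatrix Unit Unit A) := by
    rw [← mp_one j, ← h, mp_sum]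
    refine Finset.sum_congr rfl fun k _ => ?_
    rw [H62.mp_mul, H62.mp_mul, H62.mp_conj]
  rw [Fintype.sum_prod_type, ← col_sum]
  refine Finset.sum_congr rfl fun i _ => ?_
  calc ∑ k : Fin p, (col A i * mp j (y k)) * mp j c *
      (col A i * mp j (y k)).conjTranspose
      = ∑ k : Fin p, col A i * ((mp j (y k) * mp j c * (mp j (y k)).conjTranspose) *
        (col A i).conjTranspose) := by
        refine Finset.sum_congr rfl fun k _ => ?_
        rw [cm_conj_mul]
        simp only [cm_assoc]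
    _ = col A i * ((∑ k : Fin p, (mp j (y k) * mp j c * (mp j (y k)).conjTranspose)) *
        (col A i).conjTranspose) := by
        rw [sum_mul', mul_sum']
    _ = col A i * (col A i).conjTranspose := by
        rw [h1, cm_one_mul]

end

theorem t (hSB : SBP.{u}) (hFull : FullBP.{u}) (hNice : NiceP.{u}) (hLemS : LemSP.{u})
    (hStp : StpP.{u}) (hPull : QPullP.{u}) (hCut : QCutP.{u}) : TcgAP.{u} := by
  intro A B _ _ _ _ _ _ G _ _ α j hact hfix hsimp hnf hne hall C hC hdom ρ r hρ hρr hcomp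
    ι κ _ _ _ _ a b ha hb hlt δ hδ
  obtain ⟨m, hm⟩ := hSB A B G α j hact hfix hsimp
  have hr : 0 ≤ r := by linarith
  set η : ℝ := (r - ρ) / 2 with hη
  have hη0 : 0 < η := by rw [hη]; linarith
  -- the size of `θ`
  obtain ⟨θ, hθ0, hθ⟩ : ∃ θ : ℝ, 0 < θ ∧ (m : ℝ) * (Fintype.card G + 1) * θ ≤ η := by
    have h1 : (0 : ℝ) ≤ m * (Fintype.card G + 1) := by positivity
    refine ⟨η / ((m : ℝ) * (Fintype.card G + 1) + 1), by positivity, ?_⟩
    rw [← mul_div_assoc, div_le_iff₀ (by positivity)]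
    nlinarith
  obtain ⟨n, p, c, y, hc0, hc1, hsum, hcθ⟩ :=
    hFull A B G α j hact hfix hsimp hnf hne ρ hρ hcomp θ hθ0
  obtain ⟨n', z, g, hz0, hg0, hzg⟩ :=
    hNice A B G α j hact hfix hsimp hnf hne hall ρ hρ hcomp (ρ + η) η (by positivity) hη0
  -- small elements of the fixed point algebra
  have hS : ∀ (d : CStarMatrix κ κ A), (∀ σ : QTrace A, r < σ.dim (d.conjTranspose * d)) →
      ∀ ε : ℝ, 0 < ε → ∃ (Y : CStarMatrix κ (Fin n) A) (h : CStarMatrix (Fin n) (Fin n) A),
        0 ≤ h ∧ mp j c ≤ (d * Y).conjTranspose * (d * Y) + h +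
          ε • (1 : CStarMatrix (Fin n) (Fin n) A) ∧ ∀ φ : TState A, tm φ h ≤ ε := by
    intro d hd ε hε
    refine hLemS A B G α j hact hfix (m : ℝ) ρ θ g (by positivity) hρ hθ0.le hg0 hcomp
      (fun ω => ?_) κ κ (Fin n') (Fin n) c z d hc0 hc1 hz0 hcθ (fun ω => ?_) (fun σ => ?_) ε hε
    · obtain ⟨σ, hσ⟩ := hm ω
      exact ⟨σ, fun κ _ _ x hx => (hσ κ x hx).2⟩
    · have := (hzg ω).1
      linarith
    · obtain ⟨ω, hω⟩ := hPull A B j hfix.1 σ
      have h1 := (hzg ω).2
      rw [hω (Fin n') z hz0] at h1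
      have h2 := hd σ
      linarith
  -- roots
  set q : CStarMatrix ι ι A := cfc Real.sqrt a with hq
  set s : CStarMatrix κ κ A := cfc Real.sqrt b with hs
  have hroot : ∀ {D : Type u} [CStarAlgebra D] [PartialOrder D] [StarOrderedRing D] {x : D},
      0 ≤ x → cfc Real.sqrt x * cfc Real.sqrt x = x := by
    intro D _ _ _ x hx
    have hsa : IsSelfAdjoint x := hx.isSelfAdjoint
    rw [← cfc_mul Real.sqrt Real.sqrt x Real.continuous_sqrt.continuousOn
      Real.continuous_sqrt.continuousOn]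
    conv_rhs => rw [← cfc_id' ℝ x]
    exact cfc_congr fun t ht => Real.mul_self_sqrt (spectrum_nonneg_of_nonneg hx ht)
  have hq0 : 0 ≤ q := cfc_nonneg fun t _ => Real.sqrt_nonneg t
  have hs0 : 0 ≤ s := cfc_nonneg fun t _ => Real.sqrt_nonneg t
  have hqq : q * q = a := hroot ha
  have hss : s * s = b := hroot hb
  have hqs : q.conjTranspose = q := hq0.isSelfAdjoint.star_eq
  have hsst : s.conjTranspose = s := hs0.isSelfAdjoint.star_eq
  have he0 : 0 ≤ mp j c := (H62.mp_nonneg_iff j hfix.1 c).1 hc0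
  -- the columns
  set x : ι × Fin p → CStarMatrix (Fin n) ι A :=
    fun l => (col A l.1 * mp j (y l.2)).conjTranspose with hx
  have hxa : ∑ l : ι × Fin p, (x l * q).conjTranspose * mp j c * (x l * q) = a := by
    have h1 := one_eq (ι := ι) j c y hsum
    have h2 : ∀ l : ι × Fin p, (x l * q).conjTranspose * mp j c * (x l * q) =
        q * (((col A l.1 * mp j (y l.2)) * mp j c *
          (col A l.1 * mp j (y l.2)).conjTranspose) * q) := by
      intro l
      rw [cm_conj_mul, hqs, hx, cm_conj_conj]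
      simp only [cm_assoc]
    simp only [h2]
    rw [← mul_sum', ← sum_mul', h1, cm_one_mul, hqq]
  have hsz : s * (0 : CStarMatrix κ ι A) = 0 := Matrix.mul_zero _
  have hzq : (0 : CStarMatrix κ ι A) * q = 0 := Matrix.zero_mul _
  -- induction
  have hind : ∀ S : Finset (ι × Fin p), ∀ ε : ℝ, 0 < ε →
      ∃ (Y F' : CStarMatrix κ ι A) (h : CStarMatrix ι ι A),
        s * Y = F' * q ∧ 0 ≤ h ∧
        ∑ l ∈ S, (x l * q).conjTranspose * mp j c * (x l * q) ≤
          (s * Y).conjTranspose * (s * Y) + h + ε • (1 : CStarMatrix ι ι A) ∧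
        ∀ φ : TState A, tm φ h ≤ ε := by
    intro S
    induction S using Finset.induction_on with
    | empty =>
      intro ε hε
      refine ⟨0, 0, 0, ?_, le_rfl, ?_, fun φ => ?_⟩
      · rw [hsz, hzq]
      · rw [Finset.sum_empty, add_zero]
        exact add_nonneg (cm_conj_mul_nonneg _) (smul_nonneg hε.le zero_le_one)
      · have h0 : tm φ (0 : CStarMatrix ι ι A) = 0 := by
          unfold tm
          refine Finset.sum_eq_zero fun i _ => ?_
          show (φ.φ (0 : A)).re = 0
          rw [map_zero, Complex.zero_re]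
        rw [h0]
        exact hε.le
    | insert l S hl ih =>
      intro ε hε
      obtain ⟨Y, F', h, h1, h2, h3, h4⟩ := hStp A ι κ (Fin n) a q _ b s (mp j c) r hq0 hqq hs0
        hss he0 hr hlt hS ih (x l) ε hε
      refine ⟨Y, F', h, h1, h2, ?_, h4⟩
      rw [Finset.sum_insert hl, add_comm]
      exact h3
  -- the end
  set K : ℝ := C * Fintype.card ι with hK
  have hK0 : 0 ≤ K := by positivity
  obtain ⟨ε, hε0, hε1, hε2⟩ : ∃ ε : ℝ, 0 < ε ∧ ε ≤ δ / 2 ∧ K * ε < δ / 2 * δ := by
    refine ⟨min (δ / 2) (δ * δ / (4 * (K + 1))), by positivity, min_le_left _ _, ?_⟩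
    have h1 : K * min (δ / 2) (δ * δ / (4 * (K + 1))) ≤ K * (δ * δ / (4 * (K + 1))) :=
      mul_le_mul_of_nonneg_left (min_le_right _ _) hK0
    refine lt_of_le_of_lt h1 ?_
    rw [← mul_div_assoc, div_lt_iff₀ (by positivity)]
    nlinarith [mul_pos hδ hδ]
  obtain ⟨Y, F', h, h1, h2, h3, h4⟩ := hind Finset.univ ε hε0
  rw [hxa] at h3
  refine ⟨Y, cut h (δ / 2), cut_nonneg _ _, ?_, fun σ => ?_⟩
  · have h5 : (s * Y).conjTranspose * (s * Y) = Y.conjTranspose * b * Y := by
      rw [cm_conj_mul, hsst, ← hss]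
      simp only [cm_assoc]
    rw [h5] at h3
    have h6 : h ≤ cut h (δ / 2) + (δ / 2) • (1 : CStarMatrix ι ι A) :=
      le_cut_add h2.isSelfAdjoint _
    have h7 : ε • (1 : CStarMatrix ι ι A) ≤ (δ / 2) • (1 : CStarMatrix ι ι A) :=
      smul_le_smul_of_nonneg_right hε1 zero_le_one
    calc a ≤ Y.conjTranspose * b * Y + h + ε • (1 : CStarMatrix ι ι A) := h3
      _ ≤ Y.conjTranspose * b * Y + (cut h (δ / 2) + (δ / 2) • (1 : CStarMatrix ι ι A)) +
          (δ / 2) • (1 : CStarMatrix ι ι A) := by gcongr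
      _ = Y.conjTranspose * b * Y + cut h (δ / 2) + δ • (1 : CStarMatrix ι ι A) := by
          have h8 : δ • (1 : CStarMatrix ι ι A) =
              (δ / 2) • (1 : CStarMatrix ι ι A) + (δ / 2) • (1 : CStarMatrix ι ι A) := by
            rw [← add_smul, add_halves]
          rw [h8]
          abel
  · obtain ⟨φ, σ₀, hφ, hd⟩ := hdom σ
    have h5 := hd ι (cut h (δ / 2)) (cut_nonneg _ _)
    have h6 := hCut A σ₀ ι h (δ / 2) h2 (by positivity)
    have h7 : σ₀.τ ι h = tm φ h := hφ ι h
    rw [h7] at h6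
    have h8 := h4 φ
    have h9 : δ / 2 * σ.dim (cut h (δ / 2)) ≤ K * ε := by
      calc δ / 2 * σ.dim (cut h (δ / 2))
          ≤ δ / 2 * (K * σ₀.dim (cut h (δ / 2))) :=
            mul_le_mul_of_nonneg_left h5 (by positivity)
        _ = K * (δ / 2 * σ₀.dim (cut h (δ / 2))) := by ring
        _ ≤ K * ε := mul_le_mul_of_nonneg_left (h6.trans h8) hK0
    have h10 : δ / 2 * σ.dim (cut h (δ / 2)) < δ / 2 * δ := lt_of_le_of_lt h9 hε2
    exact lt_of_mul_lt_mul_left h10 (by positivity)

end Pool.Agent.Helper35.RC2.TCGA
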